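import Pool.Agent.H36.LC.Stm
import Pool.Agent.H34.BL.Stm

/-!
# Project LX: `w^(11/10)` elements, sixth power

Combination of project BL (helper34: windows) and project LC (helper36: log-concave laws). Every stub
`S_x : Prop` is to be proved as `theorem x : S_x`, or `theorem x : S_a → S_b → S_x` if the docstring names
stubs it uses (namespace `Pool.Agent.H36.LX.T`, file `Pool/Agent/H36/LX/T/<NAME>.lean`).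
-/

set_option autoImplicit false

open Finset Filter Topology
open scoped Classical

namespace Pool.Agent.H36.LX

open Pool.Agent.H36.LC Pool.Agent.H36.BK Pool.Agent.H36.BK.LW Pool.Agent.H13R3.WB
  Pool.Agent.H931R3.Bal

/-- The law restricted to the window `[o, o + L)`, normalised. -/
noncomputable def winD (o L : ℕ) (p : ℕ → ℝ) (s : ℕ) : ℝ :=
  if s < L then p (o + s) / ∑ t ∈ range L, p (o + t) else 0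

/-- LX-WIN. For nonnegative `a`, `b`: `|om M a b| ≤ (∑ a) (∑ b)`; write `p = p₁ + p₂`, `p₁` the part in the
window, `p₂` of mass at most `θ`, so `|om M p q - om (p₁, q₁)| ≤ 3 θ`; `om (p₁, q₁)` is invariant under the
shift by `o` (`p`, `q` vanish from `M` on), `om L (winD p) (winD q) = om (p₁, q₁) / ((∑ p₁) (∑ q₁))`,
the sums are in `[1/2, 1]`. `winD` is unimodal and log-concave on `ℕ` (values `0` from `L` on; `d ≥ L`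
gives `0 ≤`, otherwise all four indices are `< L`). -/
def S_winD : Prop :=
  ∀ (M o L : ℕ) (p q : ℕ → ℝ) (θ K : ℝ), 1 ≤ M → 1 ≤ L → 0 ≤ θ → θ ≤ 1 / 2 →
    (∀ s, 0 ≤ p s) → (∀ s, 0 ≤ q s) → (∀ s, M ≤ s → p s = 0) → (∀ s, M ≤ s → q s = 0) →
    ∑ s ∈ range M, p s = 1 → ∑ s ∈ range M, q s = 1 → Unim p → LCc p →
    1 - θ ≤ ∑ s ∈ range L, p (o + s) → 1 - θ ≤ ∑ s ∈ range L, q (o + s) →
    (∀ s, p s * L ≤ K) →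
    ((∀ s, 0 ≤ winD o L p s) ∧ ∑ s ∈ range L, winD o L p s = 1 ∧
      (∀ s, winD o L p s ≤ 2 * K / L) ∧ Unim (winD o L p) ∧ LCc (winD o L p)) ∧
    |om M p q| - 4 * θ ≤ |om L (winD o L p) (winD o L q)|

/-- LX-CORE. From `Pool.Agent.H34.BL.S_dens1`, `S_tail1`, `S_grp1`, `S_winD` and `four`, `uni`, `fkg`,
`cov`, `ind`, `pair`, `lim` of `Pool.Agent.H36.BK`. The proof of BL-CORE (docstring of
`Pool.Agent.H34.BL.S_core1`), steps 1-4, up to the application of the cluster bound: with the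
windows `winD` (`θ = 2 / 2^k ≤ ε / 32`, `K = 2^(q+1)`). `pm` is log-concave by `four`. -/
def S_corex : Prop :=
  ∀ (α : Type) [Fintype α] [PartialOrder α] (κ : ℕ) (A : Finset α) (ε lam c : ℝ)
    (J₀ D r k q : ℕ),
    1 ≤ κ → IsAntichain (· ≤ ·) (A : Set α) → A.Nonempty → Fintype.card α ≤ κ * A.card →
    0 < ε → ε ≤ 1 → 1 ≤ D → 0 ≤ lam → 0 < c → 8 * (2 ^ 16 * (κ : ℝ)) / ε ≤ 2 ^ r →
    12 * 2 ^ r * lam ≤ ε / 4 → 32 * (2 ^ 16 * (κ : ℝ)) ^ 2 * c ≤ lam ^ 3 →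
    2 ^ 17 * (κ : ℝ) ^ 2 ≤ D * c → 64 / ε ≤ 2 ^ k → 1 + 4 * k ≤ 2 ^ q →
    (∀ x ∈ A, ∀ y ∈ A, x ≠ y → 2 * ε < |prob α x y - prob α y x|) →
    ∃ (S : Finset α) (p : α → ℕ → ℝ) (J : ℕ), J₀ ≤ J ∧
      (A.card : ℝ) ≤ 12 * 2 ^ 17 * κ * (2 * D + 1) * S.card ∧
      (∀ i ∈ S, (∀ s, 0 ≤ p i s) ∧ ∑ s ∈ range (2 ^ J), p i s = 1 ∧
        (∀ s, p i s ≤ 2 ^ (q + 2) / 2 ^ J) ∧ Unim (p i) ∧ LCc (p i)) ∧
      ∀ i ∈ S, ∀ j ∈ S, i ≠ j → ε ≤ |om (2 ^ J) (p i) (p j)|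

/-- LX-NUM. Compare BL-NUM (`Pool.Agent.H34.BL.S_num1`) and `Pool/Agent/H36/LC/T/NUM.lean`. `K = 2^16 κ`,
`8K/ε ≤ 2^r ≤ 16K/ε`, `lam = ε/(48 * 2^r)`, `c = lam^3/(32 K^2) ≥ ε^6/(2^114 κ^5)`,
`D = ⌈2^17 κ^2/c⌉`, so `12 * 2^17 κ (2 D + 1) ≤ 2^160 κ^8/ε^6`, and `κ^10 ≤ 2^10 w` gives
`κ^8 ≤ 2^8 w^(4/5)`; `64/ε ≤ 2^k ≤ 128/ε`, `1 + 4k ≤ 2^q ≤ 2 (1 + 4 k)`, so `K' = 2^(q+2) ≤ C₁ log (2/ε)`;
`2^l ≥ ε^(-1/6) > 2^(l-1)`, `32^l ≥ ε^(-5/6)`: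
`log clu2 ≤ C₂ ε^(-1/6) log (2/ε) + 500000 π K'^2 ε^(-1/6) ≤ C₃ ε^(-1/6) log (2/ε)^2`. So the right hand
side is at most `2^170 ε^(-6) w^(4/5) exp (C₃ ε^(-1/6) log (2/ε)^2) < w` if
`w ≥ exp (C ε^(-1/6) log (2/ε)^2)` with `C` large. -/
def S_num6 : Prop := ∃ C : ℝ, 1 ≤ C ∧
  ∀ (κ w : ℕ) (ε : ℝ), 1 ≤ κ → (κ : ℝ) ^ 10 ≤ 2 ^ 10 * w → 0 < ε → ε ≤ 1 / 2 →
    Real.exp (C * ε ^ (-(1 / 6 : ℝ)) * Real.log (2 / ε) ^ 2) ≤ w →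
    ∃ (l D r k q : ℕ) (lam c : ℝ), 1 ≤ D ∧ 0 ≤ lam ∧ 0 < c ∧
      8 * (2 ^ 16 * (κ : ℝ)) / ε ≤ 2 ^ r ∧ 12 * 2 ^ r * lam ≤ ε / 4 ∧
      32 * (2 ^ 16 * (κ : ℝ)) ^ 2 * c ≤ lam ^ 3 ∧ 2 ^ 17 * (κ : ℝ) ^ 2 ≤ D * c ∧
      64 / ε ≤ 2 ^ k ∧ 1 + 4 * k ≤ 2 ^ q ∧
      12 * 2 ^ 17 * (κ : ℝ) * (2 * D + 1) * clu2 l (2 ^ (q + 2)) ε < w

/-- LX-THM. From `S_corex`, `S_clu2`, `S_num6` (`J₀ = 3 l + 1`; compare
`Pool/Agent/H36/BK/S24.lean`): `κ = ⌈n / w⌉ ≤ w^(1/10) + 1 ≤ 2 w^(1/10)`. -/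
def S_thm6 : Prop := ∃ C : ℝ, 1 ≤ C ∧ ∀ (w : ℕ) (ε : ℝ), 0 < ε → ε ≤ 1 / 2 →
    Real.exp (C * ε ^ (-(1 / 6 : ℝ)) * Real.log (2 / ε) ^ 2) ≤ w →
    ∀ (P : Type) [Fintype P] [PartialOrder P] (A : Finset P), IsAntichain (· ≤ ·) (A : Set P) →
      A.card = w → (Fintype.card P : ℝ) ≤ (w : ℝ) ^ (11 / 10 : ℝ) → 1 / 2 - ε ≤ balance P

/-- LX-RATE. From `S_thm6` with `ε = (C' (log log w)^2 / log w)^6` (if this is `≤ 1/2`; otherwise the left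
side is `≤ 0 ≤ balance P`; compare `exp_le`, `rateP` in `Pool/Agent/H36/LC/T/Final.lean`). -/
def S_rate6 : Prop := ∃ C : ℝ, 1 ≤ C ∧ ∀ (P : Type) [Fintype P] [PartialOrder P] (A : Finset P),
    IsAntichain (· ≤ ·) (A : Set P) → 16 ≤ A.card →
    (Fintype.card P : ℝ) ≤ (A.card : ℝ) ^ (11 / 10 : ℝ) →
    1 / 2 - (C * (Real.log (Real.log A.card) ^ 2 / Real.log A.card)) ^ 6 ≤ balance P

end Pool.Agent.H36.LX
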