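import Pool.Agent.H36.LC.All
import Pool.Agent.H36.LX.Stm

/-!
# Project LX: the common theorem (helper34, helper36)
-/

set_option autoImplicit false

open Finset Filter Topology

namespace Pool.Agent.H36.LX

open Pool.Agent.H13R3.WB Pool.Agent.H931R3.Bal

theorem exists_step (f : ℕ → ℝ) (w v : ℕ) (hwv : w ≤ v) (h : f w < f v) :
    ∃ u, w ≤ u ∧ u < v ∧ f u < f (u + 1) := by
  by_contra hcon
  push Not at hcon
  have hmono : ∀ k : ℕ, w + k ≤ v → f (w + k) ≤ f w := by
    intro k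
    induction k with
    | zero => intro _; exact le_rfl
    | succ k ih =>
      intro hk
      exact (hcon (w + k) (by omega) (by omega)).trans (ih (by omega))
  have := hmono (v - w) (by omega)
  rw [Nat.add_sub_cancel' hwv] at this
  linarith

/-- the growth part with a strict increase at one step -/
theorem with_step (f : ℕ → ℝ) (w₀ : ℕ)
    (h : ∀ w v : ℕ, w₀ ≤ w → Real.exp (Real.log w ^ 511) ≤ v → f w < f v) :
    ∀ w : ℕ, max w₀ 3 ≤ w → ∃ u : ℕ, w ≤ u ∧ (u : ℝ) ≤ Real.exp (Real.log w ^ 511) ∧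
      f u < f (u + 1) := by
  intro w hw
  have hw3 : (3 : ℝ) ≤ w := by exact_mod_cast (le_max_right _ _).trans hw
  have hw0 : (0 : ℝ) < w := by linarith
  have hl1 : 1 ≤ Real.log w := by
    rw [Real.le_log_iff_exp_le hw0]
    have := Real.exp_one_lt_d9
    linarith
  have hX : (w : ℝ) ≤ Real.exp (Real.log w ^ 511) := by
    calc (w : ℝ) = Real.exp (Real.log w) := (Real.exp_log hw0).symm
      _ ≤ Real.exp (Real.log w ^ 511) := Real.exp_le_exp.2 (le_self_pow₀ hl1 (by norm_num))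
  obtain ⟨v, hv⟩ : ∃ v : ℕ, v = ⌈Real.exp (Real.log w ^ 511)⌉₊ := ⟨_, rfl⟩
  have h1 : Real.exp (Real.log w ^ 511) ≤ v := by rw [hv]; exact Nat.le_ceil _
  have h2 : (v : ℝ) < Real.exp (Real.log w ^ 511) + 1 := by
    rw [hv]; exact Nat.ceil_lt_add_one (Real.exp_pos _).le
  have hwv : w ≤ v := by exact_mod_cast hX.trans h1
  obtain ⟨u, g1, g2, g3⟩ := exists_step f w v hwv (h w v ((le_max_left _ _).trans hw) h1)
  refine ⟨u, g1, ?_, g3⟩
  have g4 : (u : ℝ) + 1 ≤ v := by exact_mod_cast g2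
  linarith

end Pool.Agent.H36.LX
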